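import Pool.Agent.H56.Th.Base

/-! A lower bound for the maximum of the theta function under bounded independence number:
`M_k(n) ≥ n ^ (1 - 300 log k / √k) / k`. -/

namespace Pool.Agent.Results.MP_3dd357_co.PolynomialDeficit

open Finset

/-- The theta function of a graph `G` on `n` vertices: the supremum of the sum of the entries of a
positive semidefinite real matrix of trace `1` which vanishes on the edges of `G`. -/
noncomputable def theta {n : ℕ} (G : SimpleGraph (Fin n)) : ℝ :=
  sSup {t : ℝ | ∃ B : Matrix (Fin n) (Fin n) ℝ, B.PosSemidef ∧ B.trace = 1 ∧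
    (∀ i j, G.Adj i j → B i j = 0) ∧ t = ∑ i, ∑ j, B i j}

/-- `M_k(n)`: the supremum of `theta G` over the graphs `G` on `n` vertices all of whose
independent sets have fewer than `k` vertices. -/
noncomputable def M (k n : ℕ) : ℝ :=
  sSup {t : ℝ | ∃ G : SimpleGraph (Fin n),
    (∀ I : Finset (Fin n), G.IsIndepSet (I : Set (Fin n)) → I.card < k) ∧ t = theta G}

lemma sum_le_of_posSemidef {n : ℕ} {B : Matrix (Fin n) (Fin n) ℝ} (hB : B.PosSemidef)
    (ht : B.trace = 1) : ∑ i, ∑ j, B i j ≤ n := by
  have h2 : ∀ i j, B i j ≤ (B i i + B j j) / 2 := by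
    intro i j
    have hsym : B j i = B i j := by
      have := hB.1.apply i j
      simpa using this
    by_cases hij : i = j
    · subst hij; linarith
    · have h := hB.dotProduct_mulVec_nonneg (Pi.single i 1 - Pi.single j 1 : Fin n → ℝ)
      have e : star (Pi.single i 1 - Pi.single j 1 : Fin n → ℝ)
          = (Pi.single i 1 - Pi.single j 1 : Fin n → ℝ) := by
        ext x; simp
      rw [e, Matrix.mulVec_sub, sub_dotProduct, dotProduct_sub, dotProduct_sub] at h
      simp only [Matrix.mulVec_single_one, single_dotProduct, one_mul, Matrix.col_apply] at h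
      rw [hsym] at h
      linarith
  calc ∑ i, ∑ j, B i j ≤ ∑ i, ∑ j, (B i i + B j j) / 2 :=
        sum_le_sum (fun i _ => sum_le_sum (fun j _ => h2 i j))
    _ = n * B.trace := by
        rw [Matrix.trace]
        simp only [Matrix.diag_apply]
        have h1 : ∀ i : Fin n, ∑ j, (B i i + B j j) / 2 = (n * B i i + ∑ j, B j j) / 2 := by
          intro i
          rw [← sum_div, sum_add_distrib, sum_const, card_univ, Fintype.card_fin, nsmul_eq_mul]
        rw [sum_congr rfl (fun i _ => h1 i), ← sum_div, sum_add_distrib, ← mul_sum, sum_const,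
          card_univ, Fintype.card_fin, nsmul_eq_mul]
        ring
    _ = n := by rw [ht, mul_one]

lemma le_theta {n : ℕ} {G : SimpleGraph (Fin n)} {B : Matrix (Fin n) (Fin n) ℝ}
    (hB : B.PosSemidef) (ht : B.trace = 1) (h0 : ∀ i j, G.Adj i j → B i j = 0) :
    ∑ i, ∑ j, B i j ≤ theta G := by
  unfold theta
  apply le_csSup
  · refine ⟨n, ?_⟩
    rintro t ⟨B, h1, h2, _, rfl⟩
    exact sum_le_of_posSemidef h1 h2
  · exact ⟨B, hB, ht, h0, rfl⟩

lemma theta_le {n : ℕ} (G : SimpleGraph (Fin n)) : theta G ≤ n := by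
  unfold theta
  apply Real.sSup_le
  · rintro t ⟨B, h1, h2, _, rfl⟩
    exact sum_le_of_posSemidef h1 h2
  · positivity

lemma le_M {k n : ℕ} {G : SimpleGraph (Fin n)}
    (hG : ∀ I : Finset (Fin n), G.IsIndepSet (I : Set (Fin n)) → I.card < k) :
    theta G ≤ M k n := by
  unfold M
  apply le_csSup
  · refine ⟨n, ?_⟩
    rintro t ⟨G, _, rfl⟩
    exact theta_le G
  · exact ⟨G, hG, rfl⟩

lemma one_le_M {k n : ℕ} (hk : 2 ≤ k) (hn : 1 ≤ n) : 1 ≤ M k n := by
  have h : theta (⊤ : SimpleGraph (Fin n)) ≤ M k n := by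
    apply le_M
    intro I hI
    have : I.card ≤ 1 := by
      rw [card_le_one]
      intro a ha b hb
      by_contra hne
      exact hI ha hb hne (by simp [hne])
    omega
  refine le_trans ?_ h
  set i0 : Fin n := ⟨0, hn⟩
  have hB : (Matrix.diagonal (Pi.single i0 1) : Matrix (Fin n) (Fin n) ℝ).PosSemidef := by
    apply Matrix.PosSemidef.diagonal
    intro i
    by_cases hi : i = i0
    · subst hi; simp
    · simp [hi]
  have h1 : ∑ i, ∑ j, (Matrix.diagonal (Pi.single i0 1) : Matrix (Fin n) (Fin n) ℝ) i j = 1 := by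
    have : ∀ i, ∑ j, (Matrix.diagonal (Pi.single i0 1) : Matrix (Fin n) (Fin n) ℝ) i j
        = (Pi.single i0 1 : Fin n → ℝ) i := by
      intro i
      simp [Matrix.diagonal_apply]
    rw [sum_congr rfl (fun i _ => this i)]
    simp
  rw [← h1]
  apply le_theta hB
  · rw [Matrix.trace_diagonal]; simp
  · intro i j hij
    exact Matrix.diagonal_apply_ne _ hij.ne

/-- **Lower bound for `M_k(n)`**: for all `k ≥ 2` and all `n ≥ 1`,
`M_k(n) ≥ n ^ (1 - 300 log k / √k) / k`. -/
theorem result : ∀ k n : ℕ, 2 ≤ k → 1 ≤ n →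
    (n : ℝ) ^ (1 - 300 * Real.log k / Real.sqrt k) / k ≤ M k n := by
  intro k n hk hn
  have hn1 : (1 : ℝ) ≤ n := by exact_mod_cast hn
  have hk2 : (2 : ℝ) ≤ k := by exact_mod_cast hk
  have hk0 : (0 : ℝ) < k := by linarith
  set t : ℝ := Real.sqrt k with ht
  have ht2 : t ^ 2 = k := Real.sq_sqrt hk0.le
  have ht0 : 0 < t := Real.sqrt_pos.mpr hk0
  have hlogk : 0 < Real.log k := Real.log_pos (by linarith)
  have hl2l : 0.6931471803 < Real.log 2 := Real.log_two_gt_d9
  have hl2k : Real.log 2 ≤ Real.log k := Real.log_le_log (by norm_num) hk2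
  by_cases hbig : 10000 ≤ k
  · -- large `k`
    have hbigr : (10000 : ℝ) ≤ k := by exact_mod_cast hbig
    have ht100 : 100 ≤ t := by
      apply Real.le_sqrt_of_sq_le
      linarith
    set L : ℕ := ⌊t / 100⌋₊ with hLd
    have hx1 : 1 ≤ t / 100 := by rw [le_div_iff₀ (by norm_num)]; linarith
    have hL : 1 ≤ L := Nat.le_floor (by exact_mod_cast hx1)
    have hLr : (1 : ℝ) ≤ L := by exact_mod_cast hL
    have hLle : (L : ℝ) ≤ t / 100 := Nat.floor_le (by positivity)
    have hLgt : t / 100 < L + 1 := Nat.lt_floor_add_one _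
    have hLhalf : t / 200 ≤ L := by linarith
    have hLk : 10000 * L ^ 2 ≤ k := by
      have : (10000 : ℝ) * (L : ℝ) ^ 2 ≤ k := by
        rw [← ht2]
        have : (L : ℝ) ^ 2 ≤ (t / 100) ^ 2 := pow_le_pow_left₀ (by positivity) hLle 2
        nlinarith
      exact_mod_cast this
    set D : ℝ := 400 * (L : ℝ) ^ 2 with hD
    have hD1 : 1 ≤ D := by rw [hD]; nlinarith
    have hDk : D ≤ k := by
      have : (10000 : ℝ) * (L : ℝ) ^ 2 ≤ k := by exact_mod_cast hLk
      rw [hD]; nlinarith
    have hlog2 : 0 < Real.log 2 := by linarith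
    set x : ℝ := Real.log n / (L * Real.log 2) with hx
    have hlogn : 0 ≤ Real.log n := Real.log_nonneg hn1
    have hx0 : 0 ≤ x := by positivity
    set l : ℕ := ⌊x⌋₊ + 1 with hl
    have hxl : x < l := by rw [hl]; push_cast; exact Nat.lt_floor_add_one x
    have hlx : (l : ℝ) ≤ x + 1 := by
      rw [hl]; push_cast; linarith [Nat.floor_le hx0]
    have hnl : n ≤ 2 ^ (L * l) := by
      have h1 : Real.log n ≤ (L * l : ℝ) * Real.log 2 := by
        rw [hx, div_lt_iff₀ (by positivity)] at hxl
        linarith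
      have h2 : (n : ℝ) ≤ 2 ^ (L * l) := by
        rw [← Real.log_le_log_iff (by linarith) (by positivity), Real.log_pow]
        push_cast
        exact h1
      exact_mod_cast h2
    obtain ⟨G, hG, B, hB, htr, h0, hsum⟩ :=
      Pool.H56.Th.exists_theta_graph hL hLk n l hn (by omega) hnl
    have h1 : (n : ℝ) / D ^ l ≤ M k n :=
      (hsum.trans (le_theta hB htr h0)).trans (le_M hG)
    refine le_trans ?_ h1
    -- compare exponents
    have hDl : D ^ l ≤ k * (n : ℝ) ^ (300 * Real.log k / t) := by
      have h2 : D ^ l ≤ D ^ (x + 1) := by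
        rw [← Real.rpow_natCast]
        exact Real.rpow_le_rpow_of_exponent_le hD1 hlx
      have h3 : D ^ (x + 1) = D * D ^ x := by
        rw [Real.rpow_add (by linarith), Real.rpow_one]; ring
      have h4 : D ^ x ≤ (n : ℝ) ^ (300 * Real.log k / t) := by
        rw [Real.rpow_def_of_pos (by linarith), Real.rpow_def_of_pos (by linarith)]
        apply Real.exp_le_exp.mpr
        have h5 : Real.log D ≤ Real.log k := Real.log_le_log (by linarith) hDk
        have h5' : 0 ≤ Real.log D := Real.log_nonneg hD1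
        have h6 : Real.log D * x = Real.log n * (Real.log D / (L * Real.log 2)) := by
          rw [hx]; ring
        rw [h6]
        apply mul_le_mul_of_nonneg_left _ hlogn
        rw [div_le_div_iff₀ (by positivity) ht0]
        have h7 : Real.log D * t ≤ Real.log k * (200 * L) := by
          apply mul_le_mul h5 (by linarith) ht0.le hlogk.le
        have h8 : Real.log k * (200 * L) ≤ 300 * Real.log k * (L * Real.log 2) := by
          have : 0 ≤ Real.log k * L := by positivity
          nlinarith
        linarith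
      have hDx : 0 ≤ D ^ x := by positivity
      calc D ^ l ≤ D * D ^ x := by rw [← h3]; exact h2
        _ ≤ k * (n : ℝ) ^ (300 * Real.log k / t) := mul_le_mul hDk h4 hDx hk0.le
    have hDlpos : 0 < D ^ l := by positivity
    rw [Real.rpow_sub (by linarith), Real.rpow_one, div_div, mul_comm _ (k : ℝ)]
    exact div_le_div_of_nonneg_left (by linarith) hDlpos hDl
  · -- small `k`: the exponent is not positive
    have hsmall : (k : ℝ) < 10000 := by exact_mod_cast not_le.mp hbig
    have ht100 : t < 100 := by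
      rw [ht, Real.sqrt_lt' (by norm_num)]
      linarith
    refine le_trans ?_ (one_le_M hk hn)
    have he : 1 - 300 * Real.log k / t ≤ 0 := by
      rw [sub_nonpos, le_div_iff₀ ht0]
      nlinarith
    have h1 : (n : ℝ) ^ (1 - 300 * Real.log k / t) ≤ 1 := Real.rpow_le_one_of_one_le_of_nonpos hn1 he
    rw [div_le_one hk0]
    linarith

end Pool.Agent.Results.MP_3dd357_co.PolynomialDeficit
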