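import Pool.Agent.H91.T5.Asm

/-! # `M_4(n) ≥ n ^ (2/5) / 200`

A lower bound for the maximum of the theta function over the graphs on `n` vertices without
independent set of size four.  The graphs are complements of `K₄`-free graphs on `3 ^ (5 m)` vertices
with density of order `n ^ (-1/5)` and least eigenvalue of order `-√d`. -/

set_option autoImplicit false

namespace Pool.Agent.Results.MP_3dd357_co.TwoFifths

open Finset

/-- The theta function of a graph `G` on `n` vertices: the supremum of the sum of the entries of a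
positive semidefinite real matrix of trace `1` which vanishes on the edges of `G`. -/
noncomputable def theta {n : ℕ} (G : SimpleGraph (Fin n)) : ℝ :=
  sSup {t : ℝ | ∃ B : Matrix (Fin n) (Fin n) ℝ, B.PosSemidef ∧ B.trace = 1 ∧
    (∀ i j, G.Adj i j → B i j = 0) ∧ t = ∑ i, ∑ j, B i j}

/-- `M_k(n)`: the supremum of `theta G` over the graphs `G` on `n` vertices all of whose
independent sets have fewer than `k` vertices. -/
noncomputable def M (k n : ℕ) : ℝ :=
  sSup {t : ℝ | ∃ G : SimpleGraph (Fin n),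
    (∀ I : Finset (Fin n), G.IsIndepSet (I : Set (Fin n)) → I.card < k) ∧ t = theta G}

lemma sum_le_of_posSemidef {n : ℕ} {B : Matrix (Fin n) (Fin n) ℝ} (hB : B.PosSemidef)
    (ht : B.trace = 1) : ∑ i, ∑ j, B i j ≤ n := by
  have h2 : ∀ i j, B i j ≤ (B i i + B j j) / 2 := by
    intro i j
    have hsym : B j i = B i j := by
      have := hB.1.apply i j
      simpa using this
    by_cases hij : i = j
    · subst hij; linarith
    · have h := hB.dotProduct_mulVec_nonneg (Pi.single i 1 - Pi.single j 1 : Fin n → ℝ)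
      have e : star (Pi.single i 1 - Pi.single j 1 : Fin n → ℝ)
          = (Pi.single i 1 - Pi.single j 1 : Fin n → ℝ) := by
        ext x; simp
      rw [e, Matrix.mulVec_sub, sub_dotProduct, dotProduct_sub, dotProduct_sub] at h
      simp only [Matrix.mulVec_single_one, single_dotProduct, one_mul, Matrix.col_apply] at h
      rw [hsym] at h
      linarith
  calc ∑ i, ∑ j, B i j ≤ ∑ i, ∑ j, (B i i + B j j) / 2 :=
        sum_le_sum (fun i _ => sum_le_sum (fun j _ => h2 i j))
    _ = n * B.trace := by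
        rw [Matrix.trace]
        simp only [Matrix.diag_apply]
        have h1 : ∀ i : Fin n, ∑ j, (B i i + B j j) / 2 = (n * B i i + ∑ j, B j j) / 2 := by
          intro i
          rw [← sum_div, sum_add_distrib, sum_const, card_univ, Fintype.card_fin, nsmul_eq_mul]
        rw [sum_congr rfl (fun i _ => h1 i), ← sum_div, sum_add_distrib, ← mul_sum, sum_const,
          card_univ, Fintype.card_fin, nsmul_eq_mul]
        ring
    _ = n := by rw [ht, mul_one]

lemma le_theta {n : ℕ} {G : SimpleGraph (Fin n)} {B : Matrix (Fin n) (Fin n) ℝ}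
    (hB : B.PosSemidef) (ht : B.trace = 1) (h0 : ∀ i j, G.Adj i j → B i j = 0) :
    ∑ i, ∑ j, B i j ≤ theta G := by
  unfold theta
  apply le_csSup
  · refine ⟨n, ?_⟩
    rintro t ⟨B, h1, h2, _, rfl⟩
    exact sum_le_of_posSemidef h1 h2
  · exact ⟨B, hB, ht, h0, rfl⟩

lemma theta_le {n : ℕ} (G : SimpleGraph (Fin n)) : theta G ≤ n := by
  unfold theta
  apply Real.sSup_le
  · rintro t ⟨B, h1, h2, _, rfl⟩
    exact sum_le_of_posSemidef h1 h2
  · positivity

lemma le_M {k n : ℕ} {G : SimpleGraph (Fin n)}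
    (hG : ∀ I : Finset (Fin n), G.IsIndepSet (I : Set (Fin n)) → I.card < k) :
    theta G ≤ M k n := by
  unfold M
  apply le_csSup
  · refine ⟨n, ?_⟩
    rintro t ⟨G, _, rfl⟩
    exact theta_le G
  · exact ⟨G, hG, rfl⟩

lemma one_le_M {k n : ℕ} (hk : 2 ≤ k) (hn : 1 ≤ n) : 1 ≤ M k n := by
  have h : theta (⊤ : SimpleGraph (Fin n)) ≤ M k n := by
    apply le_M
    intro I hI
    have : I.card ≤ 1 := by
      rw [card_le_one]
      intro a ha b hb
      by_contra hne
      exact hI ha hb hne (by simp [hne])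
    omega
  refine le_trans ?_ h
  set i0 : Fin n := ⟨0, hn⟩
  have hB : (Matrix.diagonal (Pi.single i0 1) : Matrix (Fin n) (Fin n) ℝ).PosSemidef := by
    apply Matrix.PosSemidef.diagonal
    intro i
    by_cases hi : i = i0
    · subst hi; simp
    · simp [hi]
  have h1 : ∑ i, ∑ j, (Matrix.diagonal (Pi.single i0 1) : Matrix (Fin n) (Fin n) ℝ) i j = 1 := by
    have : ∀ i, ∑ j, (Matrix.diagonal (Pi.single i0 1) : Matrix (Fin n) (Fin n) ℝ) i j
        = (Pi.single i0 1 : Fin n → ℝ) i := by
      intro i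
      simp [Matrix.diagonal_apply]
    rw [sum_congr rfl (fun i _ => this i)]
    simp
  rw [← h1]
  apply le_theta hB
  · rw [Matrix.trace_diagonal]; simp
  · intro i j hij
    exact Matrix.diagonal_apply_ne _ hij.ne

/-- A feasible matrix supported on the edges of a graph without `k`-clique bounds `M_k(n)`. -/
lemma transfer {ι : Type} [Fintype ι] [Nonempty ι] {k n : ℕ} (Γ : SimpleGraph ι)
    (hΓ : Γ.CliqueFree k) (B : Matrix ι ι ℝ) (hB : B.PosSemidef) (ht : B.trace = 1)
    (h0 : ∀ i j, i ≠ j → ¬ Γ.Adj i j → B i j = 0) (hn : Fintype.card ι ≤ n) :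
    ∑ i, ∑ j, B i j ≤ M k n := by
  classical
  obtain ⟨e⟩ : Nonempty (ι ↪ Fin n) :=
    Function.Embedding.nonempty_of_card_le (by rwa [Fintype.card_fin])
  set P : Matrix ι (Fin n) ℝ := Matrix.of fun i a => if e i = a then (1 : ℝ) else 0 with hP
  have hP1 : ∀ i, ∑ a, P i a = 1 := by
    intro i
    simp [hP]
  set B' : Matrix (Fin n) (Fin n) ℝ := P.conjTranspose * B * P with hB'
  have hB1 : B'.PosSemidef := hB.conjTranspose_mul_mul_same P
  have happ : ∀ a b, B' a b = ∑ j, ∑ i, P i a * B i j * P j b := by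
    intro a b
    rw [hB', Matrix.mul_apply]
    refine sum_congr rfl fun j _ => ?_
    rw [Matrix.mul_apply, sum_mul]
    refine sum_congr rfl fun i _ => ?_
    rw [Matrix.conjTranspose_apply, star_trivial]
  have hsum : ∑ a, ∑ b, B' a b = ∑ i, ∑ j, B i j := by
    have h1 : ∀ a, ∑ b, B' a b = ∑ j, ∑ i, P i a * B i j := by
      intro a
      rw [sum_congr rfl fun b _ => happ a b, sum_comm]
      refine sum_congr rfl fun j _ => ?_
      rw [sum_comm]
      refine sum_congr rfl fun i _ => ?_
      rw [← mul_sum, hP1, mul_one]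
    rw [sum_congr rfl fun a _ => h1 a, sum_comm, sum_comm (f := fun i j => B i j)]
    refine sum_congr rfl fun j _ => ?_
    rw [sum_comm]
    refine sum_congr rfl fun i _ => ?_
    rw [← sum_mul, hP1, one_mul]
  have hPP : ∀ i j, ∑ a, P i a * P j a = if i = j then 1 else 0 := by
    intro i j
    simp [hP, e.injective.eq_iff, eq_comm]
  have htr : B'.trace = 1 := by
    rw [← ht, Matrix.trace, Matrix.trace]
    simp only [Matrix.diag_apply]
    rw [sum_congr rfl fun a _ => happ a a, sum_comm]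
    refine sum_congr rfl fun j _ => ?_
    rw [sum_comm]
    have h1 : ∀ i, ∑ a, P i a * B i j * P j a = if i = j then B i j else 0 := by
      intro i
      have h2 : ∀ a, P i a * B i j * P j a = B i j * (P i a * P j a) := fun a => by ring
      rw [sum_congr rfl fun a _ => h2 a, ← mul_sum, hPP]
      split_ifs <;> simp
    rw [sum_congr rfl fun i _ => h1 i, sum_ite_eq', if_pos (mem_univ j)]
  set G : SimpleGraph (Fin n) := (Γ.map e)ᶜ with hG
  have hz : ∀ a b, G.Adj a b → B' a b = 0 := by
    intro a b hab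
    rw [hG, SimpleGraph.compl_adj] at hab
    rw [happ]
    refine sum_eq_zero fun j _ => sum_eq_zero fun i _ => ?_
    by_cases hi : e i = a
    · by_cases hj : e j = b
      · have h1 : B i j = 0 := by
          apply h0
          · intro hij
            apply hab.1
            rw [← hi, ← hj, hij]
          · intro hij
            apply hab.2
            rw [← hi, ← hj]
            exact (SimpleGraph.map_adj_apply).2 hij
        rw [h1]; ring
      · have h1 : P j b = 0 := by rw [hP]; exact if_neg hj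
        rw [h1]; ring
    · have h1 : P i a = 0 := by rw [hP]; exact if_neg hi
      rw [h1]; ring
  have hind : ∀ I : Finset (Fin n), G.IsIndepSet (I : Set (Fin n)) → I.card < k := by
    intro I hI
    by_contra hk
    rw [not_lt] at hk
    obtain ⟨J, hJ, hJc⟩ := exists_subset_card_eq hk
    have h1 : (Γ.map e).CliqueFree k := SimpleGraph.cliqueFree_map_iff.2 hΓ
    apply h1 J
    refine ⟨?_, hJc⟩
    have h2 : (Γ.map e).IsClique (I : Set (Fin n)) := (SimpleGraph.isIndepSet_compl _).1 hI
    exact h2.subset (by exact_mod_cast hJ)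
  calc ∑ i, ∑ j, B i j = ∑ a, ∑ b, B' a b := hsum.symm
    _ ≤ theta G := le_theta hB1 htr hz
    _ ≤ M k n := le_M hind

section construction

open Pool.Agent.H91.T5

variable {F : Type} [Field F] [Fintype F] [DecidableEq F]

/-- The kept graph. -/
def GK (C : F) (y : Vt F → (Option F × F) × ((F × F) × F) → Bool) : SimpleGraph (Vt F) where
  Adj := Kept C y
  symm := ⟨fun _ _ h => h.symm⟩
  loopless := ⟨fun _ h => by
    obtain ⟨_, h1, _⟩ := h
    exact h1 rfl⟩

lemma GK_cliqueFree (h3 : (3 : F) = 0) {C : F} (hC : ∀ z : F, z ^ 2 ≠ -C)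
    (y : Vt F → (Option F × F) × ((F × F) × F) → Bool) : (GK C y).CliqueFree 4 := by
  by_contra h
  rw [SimpleGraph.not_cliqueFree_iff] at h
  obtain ⟨f⟩ := h
  have hf : ∀ i j : Fin 4, i ≠ j → Kept C y (f i) (f j) := by
    intro i j hij
    have h1 : (SimpleGraph.completeGraph (Fin 4)).Adj i j := hij
    exact f.toHom.map_adj h1
  exact kept_cliqueFree h3 hC (hf 0 1 (by decide)) (hf 0 2 (by decide)) (hf 0 3 (by decide))
    (hf 1 2 (by decide)) (hf 1 3 (by decide)) (hf 2 3 (by decide))

/-- The bound from a field of characteristic three. -/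
lemma core (h3 : (3 : F) = 0) {C : F} (hC : ∀ z : F, z ^ 2 ≠ -C) {k n : ℕ} (hk : 0 < k)
    (hcard : 3 * Fintype.card F ^ 5 ≤ 3 ^ k) (hn : Fintype.card F ^ 5 ≤ n) :
    (Fintype.card F : ℝ) ^ 4 / ((Fintype.card F : ℝ) ^ 2 +
      12 * (((Fintype.card F : ℝ) ^ 2 + Fintype.card F) + 4 * k)) ≤ M 4 n := by
  obtain ⟨y, hy1, hy2⟩ := exists_kept h3 C hk hcard
  set q : ℝ := (Fintype.card F : ℝ) with hq
  have hq0 : 0 < q := by rw [hq]; exact_mod_cast Fintype.card_pos
  set μ : ℝ := 12 * ((q ^ 2 + q) + 4 * k) with hμ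
  have hμ0 : 0 < μ := by positivity
  set c : ℝ := (q ^ 2 + μ) / 2 with hc
  have hc0 : 0 < c := by positivity
  have hV : (Fintype.card (Vt F) : ℝ) = q ^ 5 := by
    simp only [Fintype.card_prod]
    push_cast
    rw [← hq]
    ring
  set B : Matrix (Vt F) (Vt F) ℝ := Matrix.of fun v w =>
    (KM C y v w + if v = w then c else 0) / (c * q ^ 5) with hB
  have hBsymm : B.IsHermitian := by
    ext v w
    rw [Matrix.conjTranspose_apply, star_trivial, hB, Matrix.of_apply, Matrix.of_apply, KM_symm]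
    by_cases h : v = w
    · subst h; rfl
    · rw [if_neg h, if_neg (fun h' => h h'.symm)]
  have hBpsd : B.PosSemidef := by
    apply Matrix.PosSemidef.of_dotProduct_mulVec_nonneg hBsymm
    intro u
    have h1 : star u ⬝ᵥ (B.mulVec u) =
        (∑ v, ∑ w, KM C y v w * (u v * u w) + c * ∑ v, u v ^ 2) / (c * q ^ 5) := by
      have h2 : ∀ v, u v * ∑ w, B v w * u w =
          (∑ w, KM C y v w * (u v * u w) + c * u v ^ 2) / (c * q ^ 5) := by
        intro v
        have h4 : ∀ w, B v w * u w =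
            (KM C y v w * u w + (if v = w then c * u w else 0)) / (c * q ^ 5) := by
          intro w
          rw [hB, Matrix.of_apply]
          split_ifs <;> ring
        rw [sum_congr rfl fun w _ => h4 w, ← sum_div, sum_add_distrib, sum_ite_eq,
          if_pos (mem_univ _), mul_div_assoc', mul_add, mul_sum]
        congr 2
        · exact sum_congr rfl fun w _ => by ring
        · ring
      rw [star_trivial]
      show ∑ v, u v * ∑ w, B v w * u w = _
      rw [sum_congr rfl fun v _ => h2 v, ← sum_div, sum_add_distrib, mul_sum]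
    rw [h1]
    apply div_nonneg _ (by positivity)
    have h5 := hy1 u
    linarith
  have hBtr : B.trace = 1 := by
    rw [Matrix.trace]
    have h1 : ∀ v, B.diag v = 1 / q ^ 5 := by
      intro v
      rw [Matrix.diag_apply, hB, Matrix.of_apply, KM_self, if_pos rfl, zero_add]
      field_simp
    rw [sum_congr rfl fun v _ => h1 v, sum_const, card_univ, nsmul_eq_mul, hV]
    field_simp
  have hB0 : ∀ v w, v ≠ w → ¬ (GK C y).Adj v w → B v w = 0 := by
    intro v w hvw hadj
    rw [hB, Matrix.of_apply, KM_of_not_kept hadj, if_neg hvw]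
    simp
  have hn' : Fintype.card (Vt F) ≤ n := by
    refine le_trans (le_of_eq ?_) hn
    simp only [Fintype.card_prod]
    ring
  have hmain := transfer (k := 4) (n := n) (GK C y) (GK_cliqueFree h3 hC y) B hBpsd hBtr hB0 hn'
  refine le_trans ?_ hmain
  have hsum : ∑ v, ∑ w, B v w = (∑ v, ∑ w, KM C y v w + c * q ^ 5) / (c * q ^ 5) := by
    have h2 : ∀ v, ∑ w, B v w = (∑ w, KM C y v w + c) / (c * q ^ 5) := by
      intro v
      rw [hB]
      simp only [Matrix.of_apply]
      rw [← sum_div, sum_add_distrib, sum_ite_eq, if_pos (mem_univ _)]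
    rw [sum_congr rfl fun v _ => h2 v, ← sum_div, sum_add_distrib, sum_const, card_univ,
      nsmul_eq_mul, hV]
    ring
  rw [hsum, div_le_div_iff₀ (by positivity) (by positivity)]
  have h6 : q ^ 4 * (c * q ^ 5) = q ^ 9 / 2 * (q ^ 2 + μ) := by rw [hc]; ring
  rw [h6]
  apply mul_le_mul_of_nonneg_right _ (by positivity)
  have h7 : c * q ^ 5 = (q ^ 7 + μ * q ^ 5) / 2 := by rw [hc]; ring
  rw [h7]
  linarith

end construction

lemma numeric (m : ℕ) (hm : 2 ≤ m) : 12 * 3 ^ m + 240 * m + 48 ≤ 8 * 9 ^ m := by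
  induction m, hm using Nat.le_induction with
  | base => norm_num
  | succ m hm ih =>
    have h1 : (0 : ℕ) < 9 ^ m := by positivity
    rw [pow_succ, pow_succ]
    omega

/-- The bound for `n ≥ 243 ^ m`, `m ≥ 2`. -/
lemma core' {m n : ℕ} (hm : 2 ≤ m) (hn : 243 ^ m ≤ n) : (9 : ℝ) ^ m / 21 ≤ M 4 n := by
  classical
  have : Fact (Nat.Prime 3) := ⟨Nat.prime_three⟩
  let F : Type := GaloisField 3 m
  let : Fintype F := Fintype.ofFinite F
  have hF : Nat.card F = 3 ^ m := GaloisField.card 3 m (by omega)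
  have hF' : Fintype.card F = 3 ^ m := by rw [← Nat.card_eq_fintype_card, hF]
  have h3 : (3 : F) = 0 := by
    have := CharP.cast_eq_zero F 3
    exact_mod_cast this
  obtain ⟨z, hz⟩ : ∃ z : F, ¬ IsSquare z := by
    apply FiniteField.exists_nonsquare
    intro h
    have h1 : ringChar F = 3 := by
      have : CharP F 3 := inferInstance
      exact ringChar.eq F 3
    omega
  have hC : ∀ w : F, w ^ 2 ≠ -(-z) := by
    intro w hw
    rw [neg_neg] at hw
    exact hz ⟨w, by rw [← hw, sq]⟩
  have h1 := core (F := F) (C := -z) (k := 5 * m + 1) (n := n) h3 hC (by omega)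
    (by rw [hF', ← pow_mul, pow_succ, mul_comm m 5, mul_comm])
    (by rw [hF', ← pow_mul, mul_comm, pow_mul]; exact hn)
  rw [hF'] at h1
  refine le_trans ?_ h1
  push_cast
  have h9 : ((3 : ℝ) ^ m) ^ 2 = 9 ^ m := by
    rw [← pow_mul, mul_comm, pow_mul]; norm_num
  have h4 : ((3 : ℝ) ^ m) ^ 4 = 9 ^ m * 9 ^ m := by
    rw [← h9]; ring
  rw [h4, h9, div_le_div_iff₀ (by norm_num) (by positivity)]
  have h5 : (12 : ℝ) * 3 ^ m + 240 * m + 48 ≤ 8 * 9 ^ m := by exact_mod_cast numeric m hm
  rw [mul_assoc]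
  apply mul_le_mul_of_nonneg_left _ (by positivity)
  linarith

/-- **Main theorem.** `M_4(n) ≥ n ^ (2/5) / 200` for all `n ≥ 1`. -/
theorem result : ∀ n : ℕ, 1 ≤ n → (n : ℝ) ^ ((2 : ℝ) / 5) / 200 ≤ M 4 n := by
  intro n hn
  have hn1 : (1 : ℝ) ≤ n := by exact_mod_cast hn
  set m : ℕ := Nat.log 243 n with hm
  have hlt : n < 243 ^ (m + 1) := Nat.lt_pow_succ_log_self (by norm_num) n
  have hpow : (n : ℝ) ^ ((2 : ℝ) / 5) ≤ 9 ^ (m + 1) := by
    have h1 : (n : ℝ) ≤ (243 : ℝ) ^ (m + 1) := by exact_mod_cast hlt.le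
    have h2 : (n : ℝ) ^ ((2 : ℝ) / 5) ≤ ((243 : ℝ) ^ (m + 1)) ^ ((2 : ℝ) / 5) :=
      Real.rpow_le_rpow (by linarith) h1 (by norm_num)
    refine h2.trans (le_of_eq ?_)
    have h4 : (243 : ℝ) ^ (m + 1) = ((3 : ℝ) ^ (m + 1)) ^ (5 : ℝ) := by
      rw [← Real.rpow_natCast, ← Real.rpow_natCast, ← Real.rpow_mul (by norm_num), mul_comm,
        Real.rpow_mul (by norm_num)]
      norm_num
    rw [h4, ← Real.rpow_mul (by positivity)]
    norm_num
    rw [← pow_mul, mul_comm, pow_mul]
    norm_num
  by_cases hm2 : 2 ≤ m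
  · have h1 : 243 ^ m ≤ n := Nat.pow_log_le_self 243 (by omega)
    have h2 := core' hm2 h1
    have h4 : (9 : ℝ) ^ (m + 1) = 9 * 9 ^ m := by rw [pow_succ]; ring
    rw [h4] at hpow
    have h5 : (0 : ℝ) < 9 ^ m := by positivity
    refine le_trans ?_ h2
    rw [div_le_div_iff₀ (by norm_num) (by norm_num)]
    nlinarith
  · have h1 : (1 : ℝ) ≤ M 4 n := one_le_M (by norm_num) hn
    have h2 : (9 : ℝ) ^ (m + 1) ≤ 9 ^ 2 := pow_le_pow_right₀ (by norm_num) (by omega)
    norm_num at h2
    refine le_trans ?_ h1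
    rw [div_le_one (by norm_num)]
    linarith

end Pool.Agent.Results.MP_3dd357_co.TwoFifths
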